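import Pool.Agent.H.MP_b9c7f5_lc.A

namespace Pool.Agent.Results.MP_b9c7f5_lc.Hard

open Pool.Agent.Lib.CX Pool.Agent.H.MP_b9c7f5_lc

theorem result : NPHard fun a : Gr => ImpLe a.G (5 / 4) := hard

end Pool.Agent.Results.MP_b9c7f5_lc.Hard
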